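import Pool.Agent.Work.MP_735653_gt.Bridge

/-! Every element `P + (-1)^(d+1) Pbar` of the integral polytope group is the L2-torsion polytope of
a closed orientable smooth `d`-manifold, for every `d ≥ 4`. -/

namespace Pool.Agent.Results.MP_735653_gt.Realisation

open Pool.Agent.Work.MP_735653_gt.St Pointwise
open scoped Manifold ContDiff

theorem result (d : ℕ) (hd : 4 ≤ d) (n : ℕ) (hn : 1 ≤ n) (T₁ T₂ : Finset (Fin n → ℤ))
    (h₁ : T₁.Nonempty) (h₂ : T₂.Nonempty) :
    ∃ (N : Type) (_ : TopologicalSpace N) (_ : ChartedSpace (EuclideanSpace ℝ (Fin d)) N),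
      IsManifold (𝓡 d) ∞ N ∧ CompactSpace N ∧ T2Space N ∧ ConnectedSpace N ∧ Orientable N d ∧
      ∃ (G : Type) (_ : Group G) (E : Type) (_ : TopologicalSpace E) (_ : MulAction G E)
        (_ : ContinuousConstSMul G E) (p : E → N),
        IsQuotientCoveringMap p G ∧ SimplyConnectedSpace E ∧
        (∀ x, Nonempty (FundamentalGroup N x ≃* G)) ∧ WhAC G ∧
        Realises G E ((cls T₁ - cls T₂) + (-1 : ℤ) ^ (d + 1) • (cls (-T₁) - cls (-T₂))) :=
  Pool.Agent.Work.MP_735653_gt.real_final d hd n hn T₁ T₂ h₁ h₂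

end Pool.Agent.Results.MP_735653_gt.Realisation
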